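import Pool.Agent.Q100.Bm.Meas

/-!
# A Baire measurable probability measure outside the sequential closure of the Dirac measures

The definitions `MK`, `dirac`, `coDelta`, `Seq`, `SeqIter`, `Represents` are in
`Pool/Agent/Q100/SeqDefs.lean`, the definitions `pointwiseTopology`, `baire`, `baireCp` in
`Pool/Agent/Q100/Bm/Meas.lean`.
-/

set_option autoImplicit false

namespace Pool.Agent.Results.MP_44758c_an.NotSequential

open MeasureTheory Q100.SeqCl Q100.Bm

/-- The negated form of Q1: there are a compact space `K` and a Radon probability measure `μ` on `K`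
such that `f ↦ ∫ f dμ` is `Ba(C_p(K))`-measurable, but `μ` is in none of the iterated sequential
closures `Seq^α(co Δ_K)`. -/
theorem result : ∃ (K : Type) (_ : TopologicalSpace K) (_ : CompactSpace K) (_ : T2Space K)
    (_ : MeasurableSpace K) (_ : BorelSpace K) (μ : Measure K) (φ : MK K),
    IsProbabilityMeasure μ ∧ μ.Regular ∧ Represents μ φ ∧
      (Measurable[baireCp K] fun f : C(K, ℝ) => ∫ x, f x ∂μ) ∧
      ∀ α : Ordinal.{0}, φ ∉ SeqIter (coDelta K) α := by
  obtain ⟨m, h1, h2, h3⟩ := exists_measure
  refine ⟨Q100.Bm.K, inferInstance, inferInstance, inferInstance, inferInstance, inferInstance, m,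
    mu, h1, h2, h3, ?_, fun α h => mu_not_mem (seqIter_subset coDelta_subset α h)⟩
  have h4 : (fun f : C(Q100.Bm.K, ℝ) => ∫ x, f x ∂m) = fun f => mu f := funext fun f => (h3 f).symm
  rw [h4]
  exact measurable_mu

end Pool.Agent.Results.MP_44758c_an.NotSequential
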